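import Pool.Agent.MP_20201c_gt.H91.Defs0

/-! From a finite network with a pairing at the boundary points to billiard trajectories. -/

open Set

namespace Pool.Agent.MP_20201c_gt.H33

open Pool.Agent.MP_20201c_gt.H91

/-- Nondegenerate chords of the closed domain. -/
def Chord (ρ : ℂ → ℝ) (s : ℂ × ℂ) : Prop :=
  s.1 ≠ s.2 ∧ s.1 ∈ frontier {z | 0 < ρ z} ∧ s.2 ∈ frontier {z | 0 < ρ z} ∧
    segment ℝ s.1 s.2 ⊆ closure {z | 0 < ρ z}

theorem dir_swap (s : ℂ × ℂ) : dir s.swap = -dir s := by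
  simp only [dir, Prod.snd_swap, Prod.fst_swap]
  rw [norm_sub_rev s.1 s.2, ← smul_neg, neg_sub]

theorem normal_of_refl {ρ : ℂ → ℝ} {s : ℂ × ℂ} (h : Refl ρ s.swap s) :
    dir s ∈ (tang ρ s.1)ᗮ := by
  have h2 : dir s = (tang ρ s.1).reflection (dir s.swap) := h.2
  rw [dir_swap, map_neg, ← Submodule.reflection_orthogonal_apply] at h2
  exact (Submodule.reflection_eq_self_iff _).1 h2.symm

theorem len_append (γ γ' : List (ℂ × ℂ)) : len (γ ++ γ') = len γ + len γ' := by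
  simp [len]

theorem isBilliard_of {ρ : ℂ → ℝ} {γ : List (ℂ × ℂ)} {a b : ℂ × ℂ} (ha : γ.head? = some a)
    (hb : γ.getLast? = some b) (hg : ∀ s ∈ γ, Chord ρ s) (hc : γ.IsChain (Refl ρ))
    (h : Refl ρ b a ∨ (dir a ∈ (tang ρ a.1)ᗮ ∧ dir b ∈ (tang ρ b.2)ᗮ)) : IsBilliard ρ γ := by
  have hne : γ ≠ [] := by rintro rfl; simp at ha
  have h1 : γ.head hne = a := by
    rw [List.head?_eq_some_head hne] at ha; exact Option.some.inj ha
  have h2 : γ.getLast hne = b := by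
    rw [List.getLast?_eq_some_getLast hne] at hb; exact Option.some.inj hb
  refine ⟨hne, hg, hc, ?_⟩
  rw [h1, h2]; exact h

theorem chain_append {ρ : ℂ → ℝ} {γ γ' : List (ℂ × ℂ)} {a b : ℂ × ℂ} (hc : γ.IsChain (Refl ρ))
    (hc' : γ'.IsChain (Refl ρ)) (hb : γ.getLast? = some b) (ha : γ'.head? = some a)
    (h : Refl ρ b a) : (γ ++ γ').IsChain (Refl ρ) := by
  refine List.IsChain.append hc hc' ?_
  intro x hx y hy
  rw [hb] at hx; rw [ha] at hy
  obtain rfl : b = x := by simpa using hx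
  obtain rfl : a = y := by simpa using hy
  exact h

theorem sum_erase2 {H : Type} [DecidableEq H] {S : Finset H} {x y : H} (hx : x ∈ S) (hy : y ∈ S)
    (hxy : y ≠ x) (f : H → ℝ) :
    ∑ k ∈ S, f k = f x + f y + ∑ k ∈ (S.erase x).erase y, f k := by
  rw [← Finset.add_sum_erase S f hx,
    ← Finset.add_sum_erase (S.erase x) f (Finset.mem_erase.2 ⟨hxy, hy⟩), add_assoc]

/-- The data of the induction. -/
def Dat (ρ : ℂ → ℝ) {H : Type} (S : Finset H) (e j : H → H) (γ : H → List (ℂ × ℂ))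
    (a : H → ℂ × ℂ) : Prop :=
  ∀ h ∈ S, (e h ∈ S ∧ e (e h) = h ∧ e h ≠ h ∧ j h ∈ S ∧ j (j h) = h) ∧
    (γ h).head? = some (a h) ∧ (γ (e h)).getLast? = some (a h).swap ∧ (∀ s ∈ γ h, Chord ρ s) ∧
    (γ h).IsChain (Refl ρ) ∧ len (γ (e h)) = len (γ h) ∧ Refl ρ (a h).swap (a (j h))

theorem Dat.erase {ρ : ℂ → ℝ} {H : Type} [DecidableEq H] {S : Finset H} {e j : H → H}
    {γ : H → List (ℂ × ℂ)} {a : H → ℂ × ℂ} (D : Dat ρ S e j γ a) {h : H} (hh : h ∈ S)
    (hj : (j h = h ∧ j (e h) = e h) ∨ j h = e h) :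
    Dat ρ ((S.erase h).erase (e h)) e j γ a := by
  intro k hk
  simp only [Finset.mem_erase] at hk ⊢
  obtain ⟨k1, k2, k3⟩ := hk
  obtain ⟨⟨a1, a2, a3, a4, a5⟩, r⟩ := D k k3
  obtain ⟨⟨b1, b2, b3, b4, b5⟩, -⟩ := D h hh
  refine ⟨⟨⟨?_, ?_, a1⟩, a2, a3, ⟨?_, ?_, a4⟩, a5⟩, r⟩
  · intro h1; apply k2; rw [← a2, h1, b2]
  · intro h1; apply k1; rw [← a2, h1]
  · intro h1
    have h2 : k = j (e h) := by rw [← a5, h1]
    rcases hj with hj | hj
    · exact k1 (h2.trans hj.2)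
    · apply k2; rw [h2, ← hj, b5]
  · intro h1
    have h2 : k = j h := by rw [← a5, h1]
    rcases hj with hj | hj
    · exact k2 (h2.trans hj.1)
    · exact k1 (h2.trans hj)

theorem Dat.merge {ρ : ℂ → ℝ} {H : Type} [DecidableEq H] {S : Finset H} {e j : H → H}
    {γ : H → List (ℂ × ℂ)} {a : H → ℂ × ℂ} (D : Dat ρ S e j γ a) {h : H} (hh : h ∈ S)
    (h1 : j h ≠ h) (h2 : j h ≠ e h) :
    ∃ (e' : H → H) (γ' : H → List (ℂ × ℂ)), Dat ρ ((S.erase h).erase (j h)) e' j γ' a ∧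
      ∑ k ∈ (S.erase h).erase (j h), len (γ' k) = ∑ k ∈ S, len (γ k) := by
  obtain ⟨⟨b1, b2, b3, b4, b5⟩, b6, b7, b8, b9, b10, b11⟩ := D h hh
  obtain ⟨⟨c1, c2, c3, c4, c5⟩, c6, c7, c8, c9, c10, c11⟩ := D (j h) b4
  obtain ⟨⟨d1, d2, d3, d4, d5⟩, d6, d7, d8, d9, d10, d11⟩ := D (e h) b1
  obtain ⟨⟨f1, f2, f3, f4, f5⟩, f6, f7, f8, f9, f10, f11⟩ := D (e (j h)) c1
  have n1 : e (j h) ≠ e h := fun hx => h1 (by rw [← c2, hx, b2])
  have n2 : e (j h) ≠ h := fun hx => h2 (by rw [← c2, hx])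
  rw [b2] at d7 d10
  rw [c2] at f7 f10
  rw [b5] at c11
  have m1 : e h ∈ (S.erase h).erase (j h) := by
    simp only [Finset.mem_erase]; exact ⟨h2.symm, b3, b1⟩
  have m2 : e (j h) ∈ (S.erase h).erase (j h) := by
    simp only [Finset.mem_erase]; exact ⟨c3, n2, c1⟩
  have jm : ∀ k ∈ (S.erase h).erase (j h), j k ∈ (S.erase h).erase (j h) := by
    intro k hk
    simp only [Finset.mem_erase] at hk ⊢
    obtain ⟨k1, k2, k3⟩ := hk
    obtain ⟨⟨-, -, -, a4, a5⟩, -⟩ := D k k3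
    refine ⟨fun hx => k2 ?_, fun hx => k1 ?_, a4⟩
    · rw [← a5, hx, b5]
    · rw [← a5, hx]
  have hne : ∀ {γ : List (ℂ × ℂ)} {x : ℂ × ℂ}, γ.head? = some x → γ ≠ [] := by
    rintro γ x hx rfl; simp at hx
  refine ⟨fun k => if k = e h then e (j h) else if k = e (j h) then e h else e k,
    fun k => if k = e h then γ (e h) ++ γ (j h) else if k = e (j h) then γ (e (j h)) ++ γ h
      else γ k, ?_, ?_⟩
  · intro k hk
    by_cases k1 : k = e h
    · subst k1
      simp only [if_true, n1, if_false]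
      refine ⟨⟨m2, trivial, n1, jm _ hk, d5⟩, ?_, ?_, ?_, ?_, ?_, d11⟩
      · rw [List.head?_append, d6]; rfl
      · rw [List.getLast?_append, d7]; rfl
      · intro s hs
        rcases List.mem_append.1 hs with hs | hs
        · exact d8 s hs
        · exact c8 s hs
      · exact chain_append d9 c9 b7 c6 b11
      · rw [len_append, len_append, c10, b10]; ring
    by_cases k2 : k = e (j h)
    · subst k2
      simp only [if_true, n1, if_false]
      refine ⟨⟨m1, trivial, n1.symm, jm _ hk, f5⟩, ?_, ?_, ?_, ?_, ?_, f11⟩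
      · rw [List.head?_append, f6]; rfl
      · rw [List.getLast?_append, f7]; rfl
      · intro s hs
        rcases List.mem_append.1 hs with hs | hs
        · exact f8 s hs
        · exact b8 s hs
      · exact chain_append f9 b9 c7 b6 c11
      · rw [len_append, len_append, c10, b10]; ring
    have hk' := hk
    simp only [Finset.mem_erase] at hk'
    obtain ⟨k3, k4, k5⟩ := hk'
    obtain ⟨⟨a1, a2, a3, a4, a5⟩, r⟩ := D k k5
    have e1 : e k ≠ e h := fun hx => k4 (by rw [← a2, hx, b2])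
    have e2 : e k ≠ e (j h) := fun hx => k3 (by rw [← a2, hx, c2])
    simp only [k1, k2, e1, e2, if_false]
    refine ⟨⟨?_, a2, a3, jm _ hk, a5⟩, r⟩
    simp only [Finset.mem_erase]
    exact ⟨fun hx => k2 (by rw [← a2, hx]), fun hx => k1 (by rw [← a2, hx]), a1⟩
  · rw [sum_erase2 hh b4 h1, sum_erase2 m1 m2 n1, sum_erase2 m1 m2 n1]
    simp only [if_true, n1, if_false, len_append]
    have : ∑ k ∈ (((S.erase h).erase (j h)).erase (e h)).erase (e (j h)),
        len (if k = e h then γ (e h) ++ γ (j h) else if k = e (j h) then γ (e (j h)) ++ γ h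
          else γ k) = ∑ k ∈ (((S.erase h).erase (j h)).erase (e h)).erase (e (j h)),
        len (γ k) := by
      refine Finset.sum_congr rfl fun k hk => ?_
      simp only [Finset.mem_erase] at hk
      rw [if_neg hk.2.1, if_neg hk.1]
    rw [this]; ring

theorem Dat.exists_list {ρ : ℂ → ℝ} {H : Type} [DecidableEq H] (j : H → H) (a : H → ℂ × ℂ) :
    ∀ (n : ℕ) (S : Finset H), S.card = n → ∀ (e : H → H) (γ : H → List (ℂ × ℂ)),
      Dat ρ S e j γ a → ∃ Γ : List (List (ℂ × ℂ)), (∀ g ∈ Γ, IsBilliard ρ g) ∧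
        2 * (Γ.map len).sum = ∑ k ∈ S, len (γ k) := by
  intro n
  induction n using Nat.strong_induction_on with
  | _ n ih =>
  intro S hS e γ D
  rcases S.eq_empty_or_nonempty with rfl | ⟨h, hh⟩
  · exact ⟨[], by simp, by simp⟩
  have lt : ∀ x ∈ S, ∀ y, ((S.erase x).erase y).card < n := fun x hx y =>
    lt_of_le_of_lt Finset.card_erase_le (hS ▸ Finset.card_erase_lt_of_mem hx)
  have fin : ∀ h ∈ S, ((j h = h ∧ j (e h) = e h) ∨ j h = e h) →
      ∃ Γ : List (List (ℂ × ℂ)), (∀ g ∈ Γ, IsBilliard ρ g) ∧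
        2 * (Γ.map len).sum = ∑ k ∈ S, len (γ k) := by
    intro h hh hj
    obtain ⟨Γ, g1, g2⟩ := ih _ (lt h hh (e h)) _ rfl e γ (D.erase hh hj)
    obtain ⟨⟨b1, b2, b3, b4, b5⟩, b6, b7, b8, b9, b10, b11⟩ := D h hh
    obtain ⟨⟨d1, d2, d3, d4, d5⟩, d6, d7, d8, d9, d10, d11⟩ := D (e h) b1
    rw [b2] at d7
    refine ⟨γ h :: Γ, ?_, ?_⟩
    · intro g hg
      rcases List.mem_cons.1 hg with rfl | hg
      · refine isBilliard_of b6 d7 b8 b9 ?_
        rcases hj with hj | hj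
        · right
          rw [hj.1] at b11; rw [hj.2] at d11
          refine ⟨normal_of_refl b11, ?_⟩
          rw [dir_swap]
          exact Submodule.neg_mem _ (normal_of_refl d11)
        · left
          have : j (e h) = h := by rw [← hj, b5]
          rwa [this] at d11
      · exact g1 g hg
    · rw [sum_erase2 hh b1 b3, b10, ← g2]; simp; ring
  have mid : ∀ h ∈ S, j h ≠ h →
      ∃ Γ : List (List (ℂ × ℂ)), (∀ g ∈ Γ, IsBilliard ρ g) ∧
        2 * (Γ.map len).sum = ∑ k ∈ S, len (γ k) := by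
    intro h hh h1
    by_cases h2 : j h = e h
    · exact fin h hh (Or.inr h2)
    obtain ⟨e', γ', D', hs⟩ := D.merge hh h1 h2
    rw [← hs]
    exact ih _ (lt h hh (j h)) _ rfl e' γ' D'
  by_cases h1 : j h = h
  · by_cases h2 : j (e h) = e h
    · exact fin h hh (Or.inl ⟨h1, h2⟩)
    · exact mid (e h) (D h hh).1.1 h2
  · exact mid h hh h1

/-- Half edges `H`, `e` = the other end of the edge, `j` = the partner at the boundary point. -/
theorem assemble (ρ : ℂ → ℝ) {H : Type} [Fintype H] (P : H → ℂ) (e j : H → H)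
    (he : Function.Involutive e) (hj : Function.Involutive j)
    (hg : ∀ h, Chord ρ (P h, P (e h)))
    (hl : ∀ h, Refl ρ (P (e h), P h) (P (j h), P (e (j h)))) :
    ∃ Γ : List (List (ℂ × ℂ)), (∀ g ∈ Γ, IsBilliard ρ g) ∧
      2 * (Γ.map len).sum = ∑ h, ‖P (e h) - P h‖ := by
  classical
  obtain ⟨Γ, g1, g2⟩ := Dat.exists_list (ρ := ρ) j (fun h => (P h, P (e h))) _ Finset.univ rfl e
    (fun h => [(P h, P (e h))]) (by
      intro h _
      refine ⟨⟨Finset.mem_univ _, he h, fun hx => (hg h).1 (by simp only [hx]), Finset.mem_univ _,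
        hj h⟩, rfl, by simp [he h], by simpa using hg h, List.isChain_singleton _, ?_, hl h⟩
      simp [len, he h, norm_sub_rev])
  exact ⟨Γ, g1, by simpa [len] using g2⟩

end Pool.Agent.MP_20201c_gt.H33
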